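import Pool.Agent.Helper39.Uct.Goals3

/-!
MP_d97caa_an, packet GN: faithful representations exist.
-/

set_option autoImplicit false

open scoped ComplexOrder InnerProductSpace

namespace Pool.Agent.Helper49.Uct2

open Pool.Agent.Helper39.Uct

/-! ## Diagonal operators on a Hilbert sum -/

section diag

variable {ι : Type} {G : ι → Type} [∀ i, NormedAddCommGroup (G i)]
  [∀ i, InnerProductSpace ℂ (G i)]

theorem diag_mem (T : ∀ i, G i →L[ℂ] G i) (C : ℝ) (hT : ∀ i, ‖T i‖ ≤ C) (x : lp G 2) :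
    Memℓp (fun i => T i (x i)) 2 := by
  have h : Memℓp (fun i => ((C : ℂ) • x) i) 2 := lp.memℓp ((C : ℂ) • x)
  refine h.mono' ?_
  intro i
  have h1 : (((C : ℂ) • x : lp G 2) : ∀ i, G i) i = (C : ℂ) • x i := rfl
  rw [h1, norm_smul, Complex.norm_real]
  refine ((T i).le_opNorm _).trans ?_
  exact mul_le_mul_of_nonneg_right ((hT i).trans (Real.le_norm_self C)) (norm_nonneg _)

/-- The diagonal operator. -/
noncomputable def diag (T : ∀ i, G i →L[ℂ] G i) (C : ℝ) (hT : ∀ i, ‖T i‖ ≤ C) :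
    lp G 2 →L[ℂ] lp G 2 :=
  LinearMap.mkContinuous
    { toFun := fun x => ⟨fun i => T i (x i), diag_mem T C hT x⟩
      map_add' := by
        intro x y
        ext i
        exact map_add (T i) (x i) (y i)
      map_smul' := by
        intro c x
        ext i
        exact map_smul (T i) c (x i) } (max C 0) (by
    intro x
    have h1 : max C 0 * ‖x‖ = ‖((max C 0 : ℝ) : ℂ) • x‖ := by
      rw [norm_smul, Complex.norm_real, Real.norm_of_nonneg (le_max_right _ _)]
    rw [h1]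
    refine lp.norm_mono (by norm_num) ?_
    intro i
    have h2 : ((((max C 0 : ℝ) : ℂ) • x : lp G 2) : ∀ i, G i) i =
      ((max C 0 : ℝ) : ℂ) • x i := rfl
    rw [h2, norm_smul, Complex.norm_real, Real.norm_of_nonneg (le_max_right _ _)]
    refine ((T i).le_opNorm _).trans ?_
    exact mul_le_mul_of_nonneg_right ((hT i).trans (le_max_left _ _)) (norm_nonneg _))

theorem diag_apply (T : ∀ i, G i →L[ℂ] G i) (C : ℝ) (hT : ∀ i, ‖T i‖ ≤ C) (x : lp G 2)
    (i : ι) : diag T C hT x i = T i (x i) := rfl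

end diag

/-- The direct sum of representations. -/
theorem exists_sum {ι : Type} {B : Type} [NonUnitalCStarAlgebra B] (G : ι → Type)
    [∀ i, NormedAddCommGroup (G i)]
    [∀ i, InnerProductSpace ℂ (G i)] [∀ i, CompleteSpace (G i)]
    (π : ∀ i, B →⋆ₙₐ[ℂ] (G i →L[ℂ] G i)) :
    ∃ ρ : B →⋆ₙₐ[ℂ] (lp G 2 →L[ℂ] lp G 2), ∀ b (x : lp G 2) i, ρ b x i = π i b (x i) := by
  have hb : ∀ b i, ‖π i b‖ ≤ ‖b‖ := fun b i => NonUnitalStarAlgHom.norm_apply_le (π i) b
  refine ⟨{ toFun := fun b => diag (fun i => π i b) ‖b‖ (hb b)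
            map_smul' := ?_
            map_zero' := ?_
            map_add' := ?_
            map_mul' := ?_
            map_star' := ?_ }, ?_⟩
  · intro c b
    ext x i
    show π i (c • b) (x i) = c • (π i b (x i))
    rw [map_smul]; rfl
  · ext x i
    show π i 0 (x i) = 0
    rw [map_zero]; rfl
  · intro b c
    ext x i
    show π i (b + c) (x i) = π i b (x i) + π i c (x i)
    rw [map_add]; rfl
  · intro b c
    ext x i
    show π i (b * c) (x i) = π i b (π i c (x i))
    rw [map_mul]; rfl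
  · intro b
    show diag (fun i => π i (star b)) ‖star b‖ (hb (star b)) =
      ContinuousLinearMap.adjoint (diag (fun i => π i b) ‖b‖ (hb b))
    rw [ContinuousLinearMap.eq_adjoint_iff]
    intro x y
    rw [lp.inner_eq_tsum, lp.inner_eq_tsum]
    refine tsum_congr fun i => ?_
    rw [diag_apply, diag_apply, map_star]
    show ⟪(ContinuousLinearMap.adjoint (π i b)) (x i), y i⟫_ℂ = _
    rw [ContinuousLinearMap.adjoint_inner_left]
  · intro b x i
    rfl

/-! ## Separating positive functionals -/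

theorem norming {A : Type} [CStarAlgebra A] (y : A) (hy : IsSelfAdjoint y) (hy0 : y ≠ 0) :
    ∃ f : A →L[ℂ] ℂ, ‖f‖ ≤ 1 ∧ f 1 = 1 ∧ f y ≠ 0 := by
  have hyn : IsStarNormal y := hy.isStarNormal
  let S : StarSubalgebra ℂ A := StarAlgebra.elemental ℂ y
  let s : S := ⟨y, StarAlgebra.elemental.self_mem ℂ y⟩
  have hs0 : s ≠ 0 := by
    intro h
    exact hy0 (congrArg Subtype.val h)
  obtain ⟨χ, hχ⟩ : ∃ χ : WeakDual.characterSpace ℂ S, χ s ≠ 0 := by
    by_contra hcon
    push Not at hcon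
    have h1 : WeakDual.gelfandTransform ℂ S s = 0 := by
      ext χ
      exact hcon χ
    have h2 : ‖WeakDual.gelfandTransform ℂ S s‖ = ‖s‖ :=
      (AddMonoidHomClass.isometry_iff_norm _).1 (gelfandTransform_isometry S) s
    rw [h1, norm_zero] at h2
    exact hs0 (norm_eq_zero.1 h2.symm)
  have _ : Nontrivial S := ⟨⟨s, 0, hs0⟩⟩
  have hb : ∀ x : S, ‖χ x‖ ≤ ‖x‖ := by
    intro x
    exact spectrum.norm_le_norm_of_mem (AlgHom.apply_mem_spectrum χ x)
  let p : Submodule ℂ A := Subalgebra.toSubmodule S.toSubalgebra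
  let f₀ : p →ₗ[ℂ] ℂ :=
    { toFun := fun x => χ (⟨x.1, x.2⟩ : S)
      map_add' := fun x y => map_add χ (⟨x.1, x.2⟩ : S) (⟨y.1, y.2⟩ : S)
      map_smul' := fun r x => map_smul χ r (⟨x.1, x.2⟩ : S) }
  let f : StrongDual ℂ p := f₀.mkContinuous 1 (fun x => by
    rw [one_mul]
    exact hb (⟨x.1, x.2⟩ : S))
  obtain ⟨g, hg, hgn⟩ := exists_extension_norm_eq p f
  refine ⟨g, ?_, ?_, ?_⟩
  · rw [hgn]
    exact LinearMap.mkContinuous_norm_le _ zero_le_one _
  · have : g 1 = χ (1 : S) := hg ⟨1, S.one_mem⟩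
    rw [this]
    exact map_one χ
  · have : g y = χ s := hg ⟨y, s.2⟩
    rw [this]
    exact hχ

theorem exists_rep {B : Type} [NonUnitalCStarAlgebra B] (b : B) (hb : b ≠ 0) :
    ∃ (H : Type) (_ : NormedAddCommGroup H) (_ : InnerProductSpace ℂ H) (_ : CompleteSpace H)
      (π : B →⋆ₙₐ[ℂ] (H →L[ℂ] H)), π b ≠ 0 := by
  let _ : PartialOrder B := CStarAlgebra.spectralOrder B
  have _ : StarOrderedRing B := CStarAlgebra.spectralOrderedRing B
  set c : B := star b * b with hc
  have hcs : star c = c := by rw [hc, star_mul, star_star]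
  have hc0 : c ≠ 0 := by
    intro h
    exact hb ((CStarRing.star_mul_self_eq_zero_iff b).1 h)
  have hcc0 : c * c ≠ 0 := by
    intro h
    refine hc0 ((CStarRing.star_mul_self_eq_zero_iff c).1 ?_)
    rw [hcs, h]
  have hccc0 : c * c * c ≠ 0 := by
    intro h
    refine hcc0 ((CStarRing.star_mul_self_eq_zero_iff (c * c)).1 ?_)
    rw [star_mul c c, hcs, ← mul_assoc, h, zero_mul]
  have hsa : IsSelfAdjoint ((c * c * c : B) : Unitization ℂ B) := by
    show star ((c * c * c : B) : Unitization ℂ B) = _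
    rw [← Unitization.inr_star]
    congr 1
    rw [star_mul (c * c) c, star_mul c c, hcs]
    exact (mul_assoc c c c).symm
  obtain ⟨f, hf1, hf2, hf3⟩ := norming ((c * c * c : B) : Unitization ℂ B) hsa (by
    intro h
    refine hccc0 ?_
    exact Unitization.inr_injective (R := ℂ) (by rw [h, Unitization.inr_zero]))
  have hpos : ∀ x : B, 0 ≤ f ((star x * x : B) : Unitization ℂ B) := by
    intro x
    rw [Unitization.inr_mul, Unitization.inr_star]
    exact Pool.Agent.Helper93.Uct.nonneg_of_norm f hf1 hf2 _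
  let φ₀ : B →ₗ[ℂ] ℂ := f.toLinearMap ∘ₗ (Unitization.inrHom ℂ ℂ B)
  let φ : B →ₚ[ℂ] ℂ := PositiveLinearMap.mk₀ φ₀ (by
    intro x hx
    obtain ⟨y, hy⟩ := CStarAlgebra.nonneg_iff_eq_star_mul_self.1 hx
    rw [hy]
    exact hpos y)
  have hφ : ∀ x, φ x = f (x : Unitization ℂ B) := fun x => rfl
  refine ⟨φ.GNS, inferInstance, inferInstance, inferInstance, φ.gnsNonUnitalStarAlgHom, ?_⟩
  intro h0
  have h1 : φ.gnsNonUnitalStarAlgHom b ((φ.toPreGNS c : φ.PreGNS) : φ.GNS) = 0 := by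
    rw [h0]; rfl
  rw [PositiveLinearMap.gnsNonUnitalStarAlgHom_apply_coe] at h1
  have h2 : ‖φ.leftMulMapPreGNS b (φ.toPreGNS c)‖ = 0 := by
    rw [← UniformSpace.Completion.norm_coe, h1, norm_zero]
  have h3 := φ.preGNS_norm_sq (φ.leftMulMapPreGNS b (φ.toPreGNS c))
  rw [h2] at h3
  have h4 : φ.ofPreGNS (φ.leftMulMapPreGNS b (φ.toPreGNS c)) = b * c := rfl
  rw [h4, star_mul b c, hcs, hφ] at h3
  apply hf3
  have h5 : c * c * c = c * star b * (b * c) := by
    rw [hc]; simp only [mul_assoc]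
  rw [h5, ← h3]
  simp

theorem gn : S_GN := by
  intro B _
  choose H h1 h2 h3 π hπ using fun b : {b : B // b ≠ 0} => exists_rep b.1 b.2
  obtain ⟨ρ, hρ⟩ := exists_sum H π
  refine ⟨lp H 2, inferInstance, inferInstance, inferInstance, ρ, ?_⟩
  rw [injective_iff_map_eq_zero]
  intro b hb
  by_contra hb0
  apply hπ ⟨b, hb0⟩
  classical
  ext x
  have := hρ b (lp.single 2 (⟨b, hb0⟩ : {b : B // b ≠ 0}) x) ⟨b, hb0⟩
  rw [hb, lp.single_apply_self] at this
  rw [← this]
  rfl

end Pool.Agent.Helper49.Uct2
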