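import Pool.Agent.Helper49.Uct2.GN

/-!
MP_d97caa_an, packet MS: the algebra of compact infinite matrices exists.
-/

set_option autoImplicit false

open scoped ComplexOrder InnerProductSpace

namespace Pool.Agent.Helper49.Uct2

open Pool.Agent.Helper39.Uct Pool.Agent.Helper10.Uct

section matrix

variable {B H : Type} [NonUnitalCStarAlgebra B] [NormedAddCommGroup H] [InnerProductSpace ℂ H]
  [CompleteSpace H] (π : B →⋆ₙₐ[ℂ] (H →L[ℂ] H))

/-- The Hilbert space of the regular representation. -/
abbrev KK (H : Type) [NormedAddCommGroup H] : Type := lp (fun _ : ℤ => H) 2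

/-- The coordinate inclusion. -/
noncomputable def inc (H : Type) [NormedAddCommGroup H] [InnerProductSpace ℂ H] (i : ℤ) :
    H →L[ℂ] KK H :=
  lp.singleContinuousLinearMap ℂ (fun _ : ℤ => H) 2 i

/-- The coordinate projection. -/
noncomputable def prj (H : Type) [NormedAddCommGroup H] [InnerProductSpace ℂ H] (i : ℤ) :
    KK H →L[ℂ] H :=
  lp.evalCLM ℂ (fun _ : ℤ => H) 2 i

omit [CompleteSpace H] in
theorem inc_apply (i : ℤ) (x : H) : inc H i x = lp.single 2 i x := rfl

omit [CompleteSpace H] in
theorem prj_apply (i : ℤ) (x : KK H) : prj H i x = x i := rfl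

omit [CompleteSpace H] in
theorem prj_inc (i : ℤ) (x : H) : prj H i (inc H i x) = x := by
  rw [prj_apply, inc_apply, lp.single_apply_self]

omit [CompleteSpace H] in
theorem prj_inc_ne (i j : ℤ) (h : i ≠ j) (x : H) : prj H i (inc H j x) = 0 := by
  rw [prj_apply, inc_apply, lp.single_apply_ne _ _ _ h]

/-- The matrix with one entry. -/
noncomputable def me (i j : ℤ) : B →ₗ[ℂ] (KK H →L[ℂ] KK H) where
  toFun b := inc H i ∘L (π b ∘L prj H j)
  map_add' b c := by
    rw [map_add]
    ext x : 1
    show inc H i ((π b + π c) (prj H j x)) = inc H i (π b (prj H j x)) + inc H i (π c (prj H j x))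
    rw [add_apply, map_add]
  map_smul' c b := by
    rw [map_smul]
    ext x : 1
    show inc H i ((c • π b) (prj H j x)) = c • inc H i (π b (prj H j x))
    rw [smul_apply, map_smul]

theorem me_apply (i j : ℤ) (b : B) (x : KK H) : me π i j b x = inc H i (π b (prj H j x)) := rfl

theorem me_mul (i j k : ℤ) (b c : B) : me π i j b * me π j k c = me π i k (b * c) := by
  ext x : 1
  show me π i j b (me π j k c x) = _
  rw [me_apply, me_apply, prj_inc, me_apply, map_mul]
  rfl

theorem me_mul0 (i j k l : ℤ) (b c : B) (h : j ≠ k) : me π i j b * me π k l c = 0 := by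
  ext x : 1
  show me π i j b (me π k l c x) = _
  rw [me_apply, me_apply, prj_inc_ne j k h, map_zero, map_zero]
  rfl

theorem me_star (i j : ℤ) (b : B) : star (me π i j b) = me π j i (star b) := by
  symm
  show _ = ContinuousLinearMap.adjoint (me π i j b)
  rw [ContinuousLinearMap.eq_adjoint_iff]
  intro x y
  rw [me_apply, me_apply, inc_apply, inc_apply, lp.inner_single_left, lp.inner_single_right,
    map_star]
  show ⟪(ContinuousLinearMap.adjoint (π b)) (prj H i x), y j⟫_ℂ = _
  rw [ContinuousLinearMap.adjoint_inner_left]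
  rfl

theorem me_inj (hπ : Function.Injective π) (i j : ℤ) (b : B) (h : me π i j b = 0) : b = 0 := by
  apply hπ
  rw [map_zero]
  ext x : 1
  have h1 : prj H i (me π i j b (inc H j x)) = 0 := by
    rw [h]
    exact map_zero _
  rw [me_apply, prj_inc, prj_inc] at h1
  rw [h1]
  rfl

theorem me_cont (i j : ℤ) : Continuous (me π i j) := by
  have h : Continuous π := AddMonoidHomClass.continuous_of_bound π 1 (fun x => by
    rw [one_mul]
    exact NonUnitalStarAlgHom.norm_apply_le π x)
  exact continuous_const.clm_comp (h.clm_comp continuous_const)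

end matrix

theorem ms : S_MS := by
  intro B _ _
  obtain ⟨H, _, _, _, π, hπ⟩ := gn B
  let S : Set (KK H →L[ℂ] KK H) := {x | ∃ (i j : ℤ) (b : B), x = me π i j b}
  let V : Submodule ℂ (KK H →L[ℂ] KK H) := (Submodule.span ℂ S).topologicalClosure
  have hcl : IsClosed (V : Set (KK H →L[ℂ] KK H)) := Submodule.isClosed_topologicalClosure _
  have hSV : ∀ x ∈ S, x ∈ V :=
    fun x hx => Submodule.le_topologicalClosure _ (Submodule.subset_span hx)
  have hmul : ∀ x ∈ V, ∀ y ∈ V, x * y ∈ V := by
    apply closure_mul_mem _ _ _ hcl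
    rintro x ⟨i, j, b, rfl⟩ y ⟨k, l, c, rfl⟩
    by_cases hjk : j = k
    · subst hjk
      rw [me_mul]
      exact hSV _ ⟨_, _, _, rfl⟩
    · rw [me_mul0 π i j k l b c hjk]
      exact V.zero_mem
  have hstar : ∀ x ∈ V, star x ∈ V := by
    apply closure_star_mem
    rintro x ⟨i, j, b, rfl⟩
    exact ⟨j, i, star b, me_star π i j b⟩
  obtain ⟨E, _, ι, hι, hr⟩ := exists_alg V hcl hmul hstar
  have hiso : Isometry ι := NonUnitalStarAlgHom.isometry ι hι
  have h1 : ∀ (i j : ℤ) (b : B), ∃ y : E, ι y = me π i j b := by
    intro i j b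
    have : me π i j b ∈ Set.range ι := by
      rw [hr]
      exact hSV _ ⟨i, j, b, rfl⟩
    exact this
  choose g hg using h1
  let e : ℤ → ℤ → B →ₗ[ℂ] E := fun i j =>
    { toFun := g i j
      map_add' := by
        intro b c
        apply hι
        rw [hg, map_add, map_add, hg, hg]
      map_smul' := by
        intro c b
        apply hι
        rw [hg, map_smul]
        show _ = ι (c • g i j b)
        rw [map_smul, hg] }
  have he : ∀ i j b, ι (e i j b) = me π i j b := fun i j b => hg i j b
  have hec : ∀ i j, Continuous (e i j) := by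
    intro i j
    rw [hiso.isUniformInducing.isInducing.continuous_iff]
    have : (ι ∘ (e i j)) = me π i j := by
      ext1 b
      exact he i j b
    rw [this]
    exact me_cont π i j
  let W : Submodule ℂ E := ⨆ i, ⨆ j, LinearMap.range (e i j)
  have heW : ∀ i j b, e i j b ∈ W := by
    intro i j b
    exact (le_iSup (fun i => ⨆ j, LinearMap.range (e i j)) i)
      ((le_iSup (fun j => LinearMap.range (e i j)) j) ⟨b, rfl⟩)
  let L : E →ₗ[ℂ] (KK H →L[ℂ] KK H) := { toFun := ι, map_add' := map_add ι, map_smul' := map_smul ι }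
  have hdense : W.topologicalClosure = ⊤ := by
    rw [eq_top_iff]
    intro x _
    have h1 : Submodule.span ℂ S ≤ W.map L := by
      rw [Submodule.span_le]
      rintro y ⟨i, j, b, rfl⟩
      exact ⟨e i j b, heW i j b, he i j b⟩
    have h3 : ι x ∈ closure (ι '' (W : Set E)) := by
      have h4 : ι x ∈ (V : Set (KK H →L[ℂ] KK H)) := by
        rw [← hr]
        exact Set.mem_range_self x
      have h5 : (Submodule.span ℂ S : Set (KK H →L[ℂ] KK H)) ⊆ ι '' (W : Set E) := h1
      exact closure_mono h5 h4
    have h6 : x ∈ closure (W : Set E) := by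
      rw [hiso.isUniformInducing.isInducing.closure_eq_preimage_closure_image]
      exact h3
    exact h6
  refine ⟨E, inferInstance, e, ⟨?_, ?_, ?_, ?_, hdense⟩, ?_⟩
  · intro i j k b c
    apply hι
    rw [map_mul, he, he, he, me_mul]
  · intro i j k l b c hjk
    apply hι
    rw [map_mul, he, he, me_mul0 π i j k l b c hjk, map_zero]
  · intro i j b
    apply hι
    rw [map_star, he, he, me_star]
  · intro i j b h
    apply me_inj π hπ i j b
    rw [← he, h, map_zero]
  · have hsep : TopologicalSpace.IsSeparable (⋃ i, ⋃ j, Set.range (e i j)) := by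
      refine TopologicalSpace.IsSeparable.iUnion fun i => ?_
      refine TopologicalSpace.IsSeparable.iUnion fun j => ?_
      rw [← Set.image_univ]
      exact (TopologicalSpace.IsSeparable.of_separableSpace Set.univ).image (hec i j)
    have hsep2 : TopologicalSpace.IsSeparable
        (Submodule.span ℂ (⋃ i, ⋃ j, Set.range (e i j)) : Set E) := hsep.span
    have hsub : W ≤ Submodule.span ℂ (⋃ i, ⋃ j, Set.range (e i j)) := by
      refine iSup_le fun i => iSup_le fun j => ?_
      rintro x ⟨b, rfl⟩
      exact Submodule.subset_span (Set.mem_iUnion.2 ⟨i, Set.mem_iUnion.2 ⟨j, b, rfl⟩⟩)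
    have hsep3 : TopologicalSpace.IsSeparable (closure (W : Set E)) := (hsep2.mono hsub).closure
    have htop : closure (W : Set E) = Set.univ := by
      have := congrArg (fun M : Submodule ℂ E => (M : Set E)) hdense
      exact this
    rw [htop] at hsep3
    exact TopologicalSpace.isSeparable_univ_iff.1 hsep3

end Pool.Agent.Helper49.Uct2
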